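import Pool.Agent.Helper11.PC.Defs

set_option autoImplicit false

namespace Pool.Agent.Helper56.PC

universe u

open Pool.Agent.Helper11.PC

theorem linalg {R : Type u} [Ring R] (K : Subring R) (h1 : (1 : R) ≠ 0)
    (hK : ∀ x ∈ K, x ≠ 0 → ∃ z ∈ K, x * z = 1 ∧ z * x = 1) {m n : ℕ} (hmn : n < m)
    (W : Fin m → Fin n → R) (hW : ∀ i j, W i j ∈ K) :
    ∃ f : Fin m → R, f ≠ 0 ∧ (∀ i, f i ∈ K) ∧ ∀ j, ∑ i, f i * W i j = 0 := by
  have hnt : Nontrivial K := ⟨⟨1, 0, fun h => h1 (by simpa using congrArg Subtype.val h)⟩⟩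
  have hu : ∀ a : K, IsUnit a ∨ a = 0 := by
    intro a
    by_cases ha : a = 0
    · exact Or.inr ha
    · left
      obtain ⟨z, hz, h2, h3⟩ := hK a.1 a.2 (fun h => ha (Subtype.ext h))
      exact ⟨⟨a, ⟨z, hz⟩, Subtype.ext h2, Subtype.ext h3⟩, rfl⟩
  let _ : DivisionRing K := DivisionRing.ofIsUnitOrEqZero hu
  let F : (Fin m → K) →ₗ[K] (Fin n → K) :=
    { toFun := fun f j => ∑ i, f i * (⟨W i j, hW i j⟩ : K)
      map_add' := by
        intro f g
        funext j
        simp only [Pi.add_apply, add_mul, Finset.sum_add_distrib]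
      map_smul' := by
        intro c f
        funext j
        simp only [Pi.smul_apply, smul_eq_mul, mul_assoc, Finset.mul_sum, RingHom.id_apply] }
  have hker : LinearMap.ker F ≠ ⊥ := by
    apply LinearMap.ker_ne_bot_of_finrank_lt
    rw [Module.finrank_fin_fun, Module.finrank_fin_fun]
    exact hmn
  obtain ⟨f, hf, hf0⟩ := Submodule.exists_mem_ne_zero_of_ne_bot hker
  refine ⟨fun i => (f i : R), ?_, fun i => (f i).2, fun j => ?_⟩
  · intro h
    apply hf0
    funext i
    exact Subtype.ext (congrFun h i)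
  · have h2 : ∑ i, f i * (⟨W i j, hW i j⟩ : K) = 0 := congrFun (LinearMap.mem_ker.mp hf) j
    have h4 := congrArg (Subring.subtype K) h2
    rw [map_sum, map_zero] at h4
    exact h4

end Pool.Agent.Helper56.PC
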